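import Pool.Agent.L0h16.PZ.Stm

/-!
# Project PZ, module LIML: limits in the isotropic case (copied from `Pool.Agent.L0h97.LZ.limit`)
-/

set_option autoImplicit false
set_option linter.all false

open Pool.Agent.Y167 (cone)
open Pool.Agent.N165.KM (IntL)
open Topology Filter

namespace Pool.Agent.L0h68.PZ

open Pool.Agent.L0h18.LZ (bil Lorentz Pts IsoZ FinIdx S_BAS)
open Pool.Agent.L0h97.LZ
open Pool.Agent.L0h16.PZ (IsLim S_LIML)

theorem t_LIML : S_LIML := by
  classical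
  intro ρ B h hL hρ 𝒢 hG e he hee
  have hbas : S_BAS := Pool.Agent.L0h92.LZ.t_BAS
  have hs := hL.symm
  obtain ⟨w₀, hw₀I, hw₀e, hw₀⟩ := exists_w hbas hL hρ he hee
  obtain ⟨w, hw⟩ : ∃ w : Fin ρ → ℝ, w = (2 : ℝ) • w₀ := ⟨_, rfl⟩
  have hwI : w ∈ IntL ρ := by
    have := int_smul hw₀I 2
    rw [Int.cast_ofNat] at this
    rw [hw]
    exact this
  have hwe : bil B w e = 0 := by rw [hw, bil_smul_left, hw₀e, mul_zero]
  have hww : bil B w w = 4 * bil B w₀ w₀ := by rw [hw, bil_smul_left, bil_smul_right]; ring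
  have hke : ∀ k : ℝ, bil B (k • w) e = 0 := fun k => by rw [bil_smul_left, hwe, mul_zero]
  let E : ℕ → ((Fin ρ → ℝ) ≃ₗ[ℝ] (Fin ρ → ℝ)) := fun k => TV hs e ((k : ℝ) • w) hee (hke k)
  have hE : ∀ k x, E k x = tv B e ((k : ℝ) • w) x := fun k x => rfl
  have hEs : ∀ k x, (E k).symm x = tv B e (-((k : ℝ) • w)) x := fun k x => rfl
  have hEadd : ∀ k l, E k * E l = E (k + l) := by
    intro k l
    refine LinearEquiv.ext fun x => ?_
    show E k (E l x) = E (k + l) x
    rw [hE, hE, hE, tv_tv hs hee (hke _) (hke _), ← add_smul]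
    push_cast
    rfl
  have hEI : ∀ k, E k ∈ IsoZ B h := by
    intro k
    obtain ⟨n, hn⟩ := bil_int B hw₀I hw₀I
    have hk1 : ∃ n : ℤ, bil B ((k : ℝ) • w) ((k : ℝ) • w) / 2 = n := by
      refine ⟨2 * k ^ 2 * n, ?_⟩
      rw [bil_smul_left, bil_smul_right, hww, hn]
      push_cast
      ring
    have hk2 : ∃ n : ℤ, bil B (-((k : ℝ) • w)) (-((k : ℝ) • w)) / 2 = n := by
      rw [bil_neg_left, bil_neg_right, neg_neg]; exact hk1
    refine ⟨fun x hx => ?_, fun x hx => ?_, fun x y => ?_, ?_⟩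
    · rw [hE]; exact tv_int e _ x he.1 (nat_smul hwI k) hx hk1
    · rw [hEs]; exact tv_int e _ x he.1 ((IntL ρ).neg_mem (nat_smul hwI k)) hx hk2
    · rw [hE, hE, tv_iso hs hee (hke k)]
    · rw [hE, bil_tv_left, bil_smul_left, bil_smul_left, bil_smul_right, bil_smul_right, hww,
        bil_comm hs w h, bil_comm hs e h]
      have h1 := hL.pos
      have h2 : 0 ≤ (k : ℝ) ^ 2 * (-bil B w₀ w₀) * (bil B h e) ^ 2 := by
        have : 0 ≤ -bil B w₀ w₀ := by linarith
        positivity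
      nlinarith
  -- pigeonhole
  obtain ⟨R, hRf, hRI, hR⟩ := hG.idx
  have hdec : ∀ k, ∃ S ∈ 𝒢, ∃ r ∈ R, E k = S * r := fun k => hR (E k) (hEI k)
  choose S hS r hr hSr using hdec
  haveI : Finite R := hRf
  obtain ⟨i, j, hij, hrij⟩ : ∃ i j : ℕ, i < j ∧ r i = r j := by
    obtain ⟨i, j, hne, heq⟩ := Finite.exists_ne_map_eq_of_infinite (fun k => (⟨r k, hr k⟩ : R))
    have heq' : r i = r j := congrArg Subtype.val heq
    rcases lt_or_gt_of_ne hne with h | h
    · exact ⟨i, j, h, heq'⟩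
    · exact ⟨j, i, h, heq'.symm⟩
  set m : ℕ := j - i with hm
  have hm0 : 0 < m := by omega
  have hEm : E m ∈ 𝒢 := by
    have h1 : E m * E i = E j := by rw [hEadd]; congr 1; omega
    have h2 : E m = S j * (S i)⁻¹ := by
      rw [hSr i, hSr j, ← hrij] at h1
      have h3 : E m * S i = S j := by
        have := congrArg (fun T => T * (r i)⁻¹) h1
        simpa [mul_assoc] using this
      rw [← h3, mul_assoc, mul_inv_cancel, mul_one]
    rw [h2]
    exact hG.mul _ (hS j) _ (hG.inv _ (hS i))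
  have hEk : ∀ k : ℕ, E (m * (k + 1)) ∈ 𝒢 := by
    intro k
    induction k with
    | zero => simpa using hEm
    | succ k ih =>
      have : E (m * (k + 1 + 1)) = E (m * (k + 1)) * E m := by
        rw [hEadd]; congr 1
      rw [this]
      exact hG.mul _ ih _ hEm
  -- the limit
  have h0 : Tendsto (fun N : ℕ => (1 : ℝ) / ((N : ℝ) + 1)) atTop (𝓝 0) :=
    tendsto_one_div_add_atTop_nhds_zero_nat
  refine ⟨(m : ℝ) ^ 2 / 2 * (-bil B w w), ?_, fun x => ?_⟩
  · rw [hww]
    have : (0 : ℝ) < m := by exact_mod_cast hm0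
    have h2 : 0 < -(4 * bil B w₀ w₀) := by linarith
    positivity
  · refine ⟨fun k => E (m * (k + 1)), fun k => ((1 : ℝ) / ((k : ℝ) + 1)) ^ 2, hEk, fun k => by positivity, ?_, ?_⟩
    · have := h0.pow 2
      rwa [zero_pow two_ne_zero] at this
    have hval : ∀ k : ℕ, ((1 : ℝ) / ((k : ℝ) + 1)) ^ 2 • E (m * (k + 1)) x =
        ((1 : ℝ) / ((k : ℝ) + 1)) ^ 2 • x +
        ((1 : ℝ) / ((k : ℝ) + 1)) • ((m : ℝ) • (bil B x e • w - bil B x w • e)) +
          ((m : ℝ) ^ 2 / 2 * (-bil B w w) * bil B x e) • e := by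
      intro k
      have hk : ((k : ℝ) + 1) ≠ 0 := by positivity
      rw [hE]
      unfold tv
      rw [bil_smul_right, bil_smul_left, bil_smul_right]
      push_cast
      ext i
      simp only [Pi.smul_apply, Pi.add_apply, Pi.sub_apply, smul_eq_mul]
      field_simp
      ring
    simp only [hval]
    have h1 : Tendsto (fun k : ℕ => ((1 : ℝ) / ((k : ℝ) + 1)) ^ 2 • x) atTop
        (𝓝 ((0 : ℝ) ^ 2 • x)) := (h0.pow 2).smul_const x
    have h2 : Tendsto (fun k : ℕ => ((1 : ℝ) / ((k : ℝ) + 1)) •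
        ((m : ℝ) • (bil B x e • w - bil B x w • e))) atTop
        (𝓝 ((0 : ℝ) • ((m : ℝ) • (bil B x e • w - bil B x w • e)))) := h0.smul_const _
    have h3 := (h1.add h2).add_const (((m : ℝ) ^ 2 / 2 * (-bil B w w) * bil B x e) • e)
    simpa using h3

end Pool.Agent.L0h68.PZ
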