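import Pool.Agent.L0h16.PZ.Stm

/-!
# Project PZ, module PRIG: rigidity of the product
-/

set_option autoImplicit false
set_option linter.all false

open Pool.Agent.Y167 (cone Sys)
open Pool.Agent.N165.KM (IntL)
open Pool.Agent.L0h18.CO (IsOpenCone)
open Pool.Agent.L0h18.HZ (CCone Rigid Herm pd psd FinIdxU)
open Pool.Agent.L0h18.LZ (bil Lorentz pcone ncone Pts IsoZ FinIdx)
open Topology Filter

namespace Pool.Agent.L0h68.PZ

open Pool.Agent.L0h16.PZ

theorem t_PRIG : S_PRIG := by
  classical
  intro ρ m d J Q hJQ P C 𝒢 hp D hD hpt hinv hne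
  obtain ⟨x₀, hx₀D, hx₀P⟩ := hne
  -- the part of `D` in the piece `i`
  let E : ∀ i, Set (Fin (d i) → ℝ) := fun i => {v | J i v ∈ D}
  have hEcc : ∀ i, CCone (E i) := by
    intro i
    refine ⟨?_, ?_, ?_⟩
    · exact hD.closed.preimage (J i).continuous_of_finiteDimensional
    · intro x hx z hz
      show J i (x + z) ∈ D
      rw [map_add]
      exact hD.add _ hx _ hz
    · intro t ht x hx
      show J i (t • x) ∈ D
      rw [map_smul]
      exact hD.smul t ht _ hx
  have hEpt : ∀ i, ∀ x ∈ E i, -x ∈ E i → x = 0 := by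
    intro i x hx hx'
    have h1 : -(J i x) ∈ D := by
      rw [← map_neg]
      exact hx'
    have h2 := hpt _ hx h1
    have h3 := hJQ.same i x
    rw [h2, map_zero] at h3
    exact h3.symm
  have hEinv : ∀ i, ∀ T ∈ part J 𝒢 i, ∀ x ∈ E i, T x ∈ E i := by
    intro i T hT x hx
    obtain ⟨U, hU, hUT, _⟩ := hT
    show J i (T x) ∈ D
    rw [← hUT]
    exact hinv U hU _ hx
  -- limits
  have hElim : ∀ i, ∀ x ∈ D, ∀ w, IsLim (part J 𝒢 i) (Q i x) w → w ∈ E i := by
    intro i x hx w hw
    obtain ⟨T, t, hT, ht0, ht, hlim⟩ := hw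
    choose U hU hUT hUj using hT
    have hval : ∀ k, t k • U k x = J i (t k • T k (Q i x)) + t k • (∑ j ∈ Finset.univ.erase i, J j (Q j x)) := by
      intro k
      have h1 : U k x = J i (T k (Q i x)) + ∑ j ∈ Finset.univ.erase i, J j (Q j x) := by
        conv_lhs => rw [← hJQ.sum x]
        rw [map_sum, ← Finset.add_sum_erase _ _ (Finset.mem_univ i), hUT]
        congr 1
        refine Finset.sum_congr rfl fun j hj => ?_
        exact hUj k j (Finset.ne_of_mem_erase hj) _
      rw [h1, smul_add, map_smul]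
    have hmem : ∀ k, t k • U k x ∈ D := fun k => hD.smul _ (ht0 k) _ (hinv _ (hU k) x hx)
    have hl : Tendsto (fun k => t k • U k x) atTop (𝓝 (J i w)) := by
      simp only [hval]
      have h1 : Tendsto (fun k => J i (t k • T k (Q i x))) atTop (𝓝 (J i w)) :=
        (((J i).continuous_of_finiteDimensional).tendsto w).comp hlim
      have h2 : Tendsto (fun k => t k • (∑ j ∈ Finset.univ.erase i, J j (Q j x))) atTop
          (𝓝 ((0 : ℝ) • (∑ j ∈ Finset.univ.erase i, J j (Q j x)))) := ht.smul_const _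
      have h3 := h1.add h2
      rwa [zero_smul, add_zero] at h3
    exact hD.closed.mem_of_tendsto hl (Eventually.of_forall hmem)
  have hCE : ∀ i, C i ⊆ E i := fun i => (hp i).lim (E i) (hEcc i) (Q i x₀) (hx₀P i) (hElim i x₀ hx₀D)
  have hPC : ∀ i, P i ⊆ C i := fun i => by
    rw [← (hp i).cl]
    exact subset_closure
  have hEC : ∀ i, E i = C i := fun i =>
    (hp i).rig (E i) (hEcc i) (hEpt i) (hEinv i) ⟨Q i x₀, hCE i (hPC i (hx₀P i)), hx₀P i⟩
  refine Set.Subset.antisymm ?_ ?_
  · intro z hz i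
    refine (hp i).dual _ (fun w hw => ?_)
    rw [← hEC i]
    exact hElim i z hz w hw
  · intro z hz
    rw [← hJQ.sum z]
    have h0 : (0 : Fin ρ → ℝ) ∈ D := by
      have := hD.smul 0 le_rfl _ hx₀D
      rwa [zero_smul] at this
    have : ∀ S : Finset (Fin m), ∑ i ∈ S, J i (Q i z) ∈ D := by
      intro S
      induction S using Finset.induction_on with
      | empty => rw [Finset.sum_empty]; exact h0
      | insert a S ha ih =>
        rw [Finset.sum_insert ha]
        exact hD.add _ (hCE a (hz a)) _ ih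
    exact this Finset.univ

end Pool.Agent.L0h68.PZ
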